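import Mathlib
import Pool.Agent.X154.RSA.Def
import Pool.Agent.X154.RSA.C
import Pool.Agent.X154.RSA.E

/-!
Random sequential adsorption of `r`-mers on `{1, …, n}`: the variance of the number `C_n` of
`r`-mers in the jammed configuration satisfies `Var(C_n)/n → v(r)`, with `v(r)` given by an
explicit integral, for every `r ≥ 2`.
-/

open Filter Topology ProbabilityTheory

namespace Pool.Agent.Results.MP_669328_pr.VarianceFormula

open Pool.Agent.X154.RSA

theorem result (r : ℕ) (hr : 2 ≤ r) :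
    (∀ n : ℕ, ∀ B ∈ (jammed r n).support, free r n B = ∅) ∧
    Tendsto (fun n : ℕ => Var[fun k : ℕ => (k : ℝ); (countLaw r n).toMeasure] / (n : ℝ))
      atTop (𝓝 (v r)) ∧
    Tendsto (fun n : ℕ => Var[fun k : ℕ => (n : ℝ) - (r : ℝ) * (k : ℝ);
      (countLaw r n).toMeasure] / (n : ℝ)) atTop (𝓝 ((r : ℝ) ^ 2 * v r)) := by
  have hr1 : 1 ≤ r := by omega
  have h := main_limit hr1 (mm r) (ss r) (fun n hn => mm_zero hn) (fun n hn => ss_zero hn)
    (mm_rec hr1) (ss_rec hr1)
  have h2 : Tendsto (fun n : ℕ => Var[fun k : ℕ => (k : ℝ); (countLaw r n).toMeasure] / (n : ℝ))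
      atTop (𝓝 (v r)) := by
    refine h.congr (fun n => ?_)
    rw [variance_countLaw hr1]
  refine ⟨fun n B hB => jammed_free hr1 n B hB, h2, ?_⟩
  refine (h2.const_mul ((r : ℝ) ^ 2)).congr (fun n => ?_)
  have e1 : Var[fun k : ℕ => (n : ℝ) - (r : ℝ) * (k : ℝ); (countLaw r n).toMeasure]
      = (r : ℝ) ^ 2 * Var[fun k : ℕ => (k : ℝ); (countLaw r n).toMeasure] := by
    rw [variance_const_sub (by exact (measurable_of_countable _).aestronglyMeasurable)]
    rw [variance_const_mul]
  rw [e1]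
  ring

end Pool.Agent.Results.MP_669328_pr.VarianceFormula
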